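import Pool.Agent.Y881.CS.Stm

/-!
# Project CS (owner helper881), the statement MUL: a small radius from more frequencies
-/

set_option autoImplicit false

namespace Pool.Agent.Y405.CS

open Finset Pool.Agent.TH858 Pool.Agent.TH858.GP Pool.Agent.TH858.CB

/-- Going from a small radius to a large one at the cost of more frequencies. -/
theorem boost' {N : ℕ} [NeZero N] (c : ZMod N) (D : ℕ) (hD : 1 ≤ D) (ε : ℝ)
    (hDε : D * ε < 1 / 2) (j : ℕ)
    (h : ∀ i ≤ j, CB.nn (((D ^ i : ℕ) : ZMod N) * c) ≤ ε) : CB.nn c ≤ ε / D ^ j := by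
  have hD0 : (0 : ℝ) < D := by exact_mod_cast hD
  obtain ⟨θ, hθ⟩ : ∃ θ : ℝ, θ = (c.val : ℝ) / N + ((-round ((c.val : ℝ) / N) : ℤ) : ℝ) := ⟨_, rfl⟩
  have hmul : ∀ i : ℕ, nint ((D : ℝ) ^ i * θ) = CB.nn (((D ^ i : ℕ) : ZMod N) * c) := by
    intro i
    have := nint_mul c ((D ^ i : ℕ) : ℤ) (-round ((c.val : ℝ) / N))
    rw [hθ]
    push_cast at this ⊢
    exact this
  have hθabs : |θ| = CB.nn c := by
    rw [hθ]
    unfold CB.nn nint
    congr 1
    push_cast
    ring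
  have key : ∀ i ≤ j, |(D : ℝ) ^ i * θ| ≤ ε := by
    intro i
    induction i with
    | zero =>
      intro _
      have h0 := h 0 (Nat.zero_le _)
      have h1 : CB.nn (((D ^ 0 : ℕ) : ZMod N) * c) = CB.nn c := by simp
      rw [h1] at h0
      rw [pow_zero, one_mul, hθabs]
      exact h0
    | succ i ih =>
      intro hi
      have h1 := ih (by omega)
      have h2 : |(D : ℝ) ^ (i + 1) * θ| < 1 / 2 := by
        have : (D : ℝ) ^ (i + 1) * θ = D * ((D : ℝ) ^ i * θ) := by ring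
        rw [this, abs_mul, abs_of_pos hD0]
        calc (D : ℝ) * |(D : ℝ) ^ i * θ| ≤ D * ε := by gcongr
          _ < 1 / 2 := hDε
      have h3 := h (i + 1) hi
      rw [← hmul, nint_of_small h2] at h3
      exact h3
  have h3 := key j le_rfl
  rw [abs_mul, abs_of_pos (by positivity)] at h3
  rw [← hθabs, le_div_iff₀ (by positivity)]
  linarith

theorem t_MUL : Pool.Agent.Y881.CS.S_MUL := by
  classical
  intro N _ Λ R j hR
  have hR0 : (0 : ℝ) < R := by linarith
  obtain ⟨Q, hQ⟩ : ∃ Q : ℕ, Q = ⌈R⌉₊ := ⟨_, rfl⟩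
  have hQ1 : R ≤ Q := by
    rw [hQ]
    exact Nat.le_ceil R
  have hQ2 : (Q : ℝ) < R + 1 := by
    rw [hQ]
    exact Nat.ceil_lt_add_one hR0.le
  have hQ3 : 1 ≤ Q := by
    have : (1 : ℝ) ≤ Q := by linarith
    exact_mod_cast this
  refine ⟨(range (j + 1) ×ˢ Λ).image fun t => ((Q ^ t.1 : ℕ) : ZMod N) * t.2, ?_, ?_⟩
  · refine card_image_le.trans ?_
    rw [card_product, card_range]
  · intro x hx l hl
    have h1 : (Q : ℝ) * (1 / (8 * R)) < 1 / 2 := by
      rw [mul_one_div, div_lt_iff₀ (by positivity)]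
      linarith
    have h2 := boost' (l * x) Q hQ3 (1 / (8 * R)) h1 j (by
      intro i hi
      have h3 := hx (((Q ^ i : ℕ) : ZMod N) * l) (mem_image.mpr ⟨(i, l), mem_product.mpr
        ⟨mem_range.mpr (by omega), hl⟩, rfl⟩)
      rwa [mul_assoc] at h3)
    refine (norm_ψ_sub_one_le (l * x)).trans ?_
    have hπ : 2 * Real.pi ≤ 8 * R := by
      have := Real.pi_lt_four
      linarith
    have h4 : (R : ℝ) ^ j ≤ (Q : ℝ) ^ j := pow_le_pow_left₀ hR0.le hQ1 j
    have h5 : 1 / (8 * R) / (Q : ℝ) ^ j ≤ 1 / (8 * R) / R ^ j := by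
      gcongr
    have h6 : 0 ≤ 1 / (8 * R) / R ^ j := by positivity
    calc 2 * Real.pi * CB.nn (l * x) ≤ 2 * Real.pi * (1 / (8 * R) / R ^ j) :=
          mul_le_mul_of_nonneg_left (h2.trans h5) (by positivity)
      _ ≤ 8 * R * (1 / (8 * R) / R ^ j) := mul_le_mul_of_nonneg_right hπ h6
      _ = 1 / R ^ j := by field_simp

end Pool.Agent.Y405.CS
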